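import Mathlib
import Pool.Agent.D0H25.DZ.Fin

/-!
# No small relations between double zeta values `ζ(k - s, s)` with `s ≤ c k`

There is a constant `c > 0` such that `1`, `ζ(k)` and the double zeta values `ζ(k - s, s)`,
`1 ≤ s ≤ S`, of one weight `k` satisfy no nonzero relation with integer coefficients `a`, `b`, `x_s`
with `|b| ≤ exp (c k / U)`, `|x_s| ≤ exp (c k / max (s, U))`, for all `1 ≤ S ≤ c k` and all
`min (S, k ^ (1 / 3)) ≤ U ≤ S`. The value of such a linear form is larger than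
`(50 min (S, √(k / U))) ^ (-k)`. In particular (`U = S`) there is no relation with coefficients of
absolute value at most `exp (c k / S)`, and (`S = c k`, `U = k ^ (1 / 3)`) none with
`|x_s| ≤ exp (c min (k / s, k ^ (2 / 3)))`.
-/

set_option autoImplicit false

namespace Pool.Agent.Results.MP_9206b6_nt.LinearRange

open Finset Pool.Agent.D0H25.DZ

/-- the double zeta value `ζ(p, q) = ∑_{m > n ≥ 1} m ^ (-p) n ^ (-q)` -/
noncomputable def dz (p q : ℕ) : ℝ :=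
  ∑' m : ℕ, (∑ n ∈ Finset.Ico 1 (m + 1), 1 / (n : ℝ) ^ q) / ((m + 1 : ℕ) : ℝ) ^ p

/-- the zeta value `ζ(p) = ∑_{m ≥ 1} m ^ (-p)` -/
noncomputable def zt (p : ℕ) : ℝ := ∑' m : ℕ, 1 / ((m + 1 : ℕ) : ℝ) ^ p

lemma summable_zt (p : ℕ) (hp : 2 ≤ p) : Summable fun m : ℕ => 1 / ((m + 1 : ℕ) : ℝ) ^ p := by
  have h1 : Summable fun n : ℕ => 1 / (n : ℝ) ^ p := Real.summable_one_div_nat_pow.2 (by omega)
  exact (summable_nat_add_iff 1).2 h1

lemma summable_dz (p q : ℕ) (hp : 3 ≤ p) :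
    Summable fun m : ℕ => (∑ n ∈ Finset.Ico 1 (m + 1), 1 / (n : ℝ) ^ q) /
      ((m + 1 : ℕ) : ℝ) ^ p := by
  refine Summable.of_nonneg_of_le (fun m => by positivity) (fun m => ?_)
    (summable_zt (p - 1) (by omega))
  have h1 : ∑ n ∈ Finset.Ico 1 (m + 1), 1 / (n : ℝ) ^ q ≤ ((m + 1 : ℕ) : ℝ) := by
    calc ∑ n ∈ Finset.Ico 1 (m + 1), 1 / (n : ℝ) ^ q ≤ ∑ n ∈ Finset.Ico 1 (m + 1), (1 : ℝ) := by
          refine sum_le_sum fun n hn => ?_
          have hn1 : (1 : ℝ) ≤ n := by exact_mod_cast (mem_Ico.1 hn).1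
          rw [div_le_one (by positivity)]
          exact one_le_pow₀ hn1
      _ ≤ _ := by
          rw [sum_const, Nat.card_Ico, nsmul_eq_mul, mul_one]
          exact_mod_cast Nat.sub_le _ _
  obtain ⟨l, rfl⟩ : ∃ l, p = l + 1 := ⟨p - 1, by omega⟩
  rw [Nat.add_sub_cancel, pow_succ, div_le_div_iff₀ (by positivity) (by positivity)]
  nlinarith [pow_pos (show (0 : ℝ) < ((m + 1 : ℕ) : ℝ) by positivity) l]

lemma uu_eq (b : ℤ) (x : ℕ → ℤ) (S k : ℕ) (hk : S + 3 ≤ k) :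
    b * zt k + ∑ s ∈ Icc 1 S, (x s : ℝ) * dz (k - s) s = ∑' m, uu b x S k m := by
  have h1 : ∀ m : ℕ, uu b x S k m = (b : ℝ) * (1 / ((m + 1 : ℕ) : ℝ) ^ k) +
      ∑ s ∈ Icc 1 S, (x s : ℝ) * ((∑ n ∈ Finset.Ico 1 (m + 1), 1 / (n : ℝ) ^ s) /
        ((m + 1 : ℕ) : ℝ) ^ (k - s)) := by
    intro m
    rw [uu, PP]
    push_cast
    rw [add_div, mul_one_div, sum_comm, sum_div]
    congr 1
    refine sum_congr rfl fun s hs => ?_
    have hs2 := (mem_Icc.1 hs).2
    rw [← mul_sum, mul_div_assoc]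
    congr 1
    have hm : (0 : ℝ) < (m : ℝ) + 1 := by positivity
    have h2 : ((m : ℝ) + 1) ^ k = ((m : ℝ) + 1) ^ s * ((m : ℝ) + 1) ^ (k - s) := by
      rw [← pow_add]
      congr 1
      omega
    have h3 : ∑ n ∈ Finset.Ico 1 (m + 1), (((m : ℝ) + 1) / n) ^ s =
        ((m : ℝ) + 1) ^ s * ∑ n ∈ Finset.Ico 1 (m + 1), 1 / (n : ℝ) ^ s := by
      rw [mul_sum]
      exact sum_congr rfl fun n _ => by rw [div_pow]; ring
    rw [h3, h2]
    field_simp
  rw [tsum_congr h1, Summable.tsum_add, tsum_mul_left, Summable.tsum_finsetSum, zt]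
  · congr 1
    refine sum_congr rfl fun s _ => ?_
    rw [tsum_mul_left, dz]
  · intro s hs
    have hs2 := (mem_Icc.1 hs).2
    exact (summable_dz (k - s) s (by omega)).mul_left _
  · exact (summable_zt k (by omega)).mul_left _
  · exact summable_sum fun s hs => by
      have hs2 := (mem_Icc.1 hs).2
      exact (summable_dz (k - s) s (by omega)).mul_left _

/-- There is `c > 0` such that for all `k`, all `1 ≤ S ≤ c k`, all `U` with
`min (S, k ^ (1 / 3)) ≤ U ≤ S` and all integers `a`, `b`, `x_1, ..., x_S`, not all zero, with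
`|b| ≤ exp (c k / U)` and `|x_s| ≤ exp (c k / max (s, U))`,
`|a + b ζ(k) + ∑_{s ≤ S} x_s ζ(k - s, s)| > (50 min (S, √(k / U))) ^ (-k)`; in particular the left
side is not zero. (Here `s = j + 1` with `0 ≤ j < S`.) -/
theorem result :
    ∃ c : ℝ, 0 < c ∧ ∀ (k S : ℕ) (U : ℝ), 1 ≤ S → (S : ℝ) ≤ c * k →
      min (S : ℝ) ((k : ℝ) ^ (1 / 3 : ℝ)) ≤ U → U ≤ S → ∀ (a b : ℤ) (x : Fin S → ℤ),
      ¬ (a = 0 ∧ b = 0 ∧ x = 0) → |(b : ℝ)| ≤ Real.exp (c * k / U) →
      (∀ j : Fin S, |(x j : ℝ)| ≤ Real.exp (c * k / max ((j : ℝ) + 1) U)) →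
      ((50 * min (S : ℝ) (√(k / U))) ^ k)⁻¹ <
        |(a : ℝ) + b * zt k + ∑ j : Fin S, (x j : ℝ) * dz (k - (j + 1)) (j + 1)| := by
  refine ⟨1 / 10 ^ 24, by norm_num, fun k S U hS hSk hU1 hU2 a b x hne hb hx => ?_⟩
  set x' : ℕ → ℤ := fun s => if h : s - 1 < S then x ⟨s - 1, h⟩ else 0 with hx'
  have hval : ∀ j : Fin S, x' ((j : ℕ) + 1) = x j := by
    intro j
    rw [hx']
    simp
  have h1 : ∑ j : Fin S, (x j : ℝ) * dz (k - (j + 1)) (j + 1) =
      ∑ s ∈ Icc 1 S, (x' s : ℝ) * dz (k - s) s := by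
    have h2 : Icc 1 S = (univ : Finset (Fin S)).image fun j : Fin S => (j : ℕ) + 1 := by
      ext s
      simp only [mem_Icc, mem_image, mem_univ, true_and]
      constructor
      · intro h
        exact ⟨⟨s - 1, by omega⟩, by simp; omega⟩
      · rintro ⟨j, rfl⟩
        have := j.2
        omega
    rw [h2, sum_image (by
      intro i _ j _ hij
      apply Fin.ext
      simpa using hij)]
    exact sum_congr rfl fun j _ => by rw [hval]
  have hS1 : (1 : ℝ) ≤ S := by exact_mod_cast hS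
  have hk3 : S + 3 ≤ k := by
    have h2 : (10 : ℝ) ^ 24 * S ≤ k := by
      rw [one_div, ← div_eq_inv_mul, le_div_iff₀ (by norm_num)] at hSk
      linarith
    have h3 : (S : ℝ) + 3 ≤ k := by nlinarith
    exact_mod_cast h3
  have h4 := uu_eq b x' S k hk3
  rw [add_assoc, h1, h4]
  refine main k S U hS (1 / 10 ^ 24) (by norm_num) le_rfl hSk hU1 hU2 a b x' ?_ hb ?_
  · rintro ⟨h5, h6, h7⟩
    refine hne ⟨h5, h6, funext fun j => ?_⟩
    have := h7 (j + 1) (mem_Icc.2 ⟨by omega, by have := j.2; omega⟩)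
    rw [hval] at this
    exact this
  · intro s hs
    rw [mem_Icc] at hs
    obtain ⟨l, rfl⟩ : ∃ l, s = l + 1 := ⟨s - 1, by omega⟩
    have h5 := hval ⟨l, by omega⟩
    have h6 := hx ⟨l, by omega⟩
    simp only at h5 h6
    rw [h5]
    push_cast
    exact h6

end Pool.Agent.Results.MP_9206b6_nt.LinearRange
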