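import Mathlib
import Pool.Agent.D0H51.DZ.Main1

/-!
# Double zeta values of one weight: windows of proportional length

For every `B` there is `δ > 0` such that the double zeta values `ζ(p, k - p)` with `p` in a window
`[p₀, p₁]` of length at most `δ min (p₀, k - p₀)`, anywhere in the range `P ≤ p₀`, `p₁ ≤ k - P`,
together with `ζ(k)`, satisfy no linear relation with integer coefficients of absolute value at most
`B` (`P` depends only on `B`, the coefficient of `ζ(k)` is arbitrary).

Proof. A combination is the sum over the pairs `n < m` of `f(n / m) m ^ (-p) n ^ (-q)` with one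
polynomial `f` with the coefficients `c`. If `f(1 / l) = 0` for a prime number `l`, the leading
coefficient of `f` is divisible by `l`, so `f(1 / l) ≠ 0` for a prime number `l > B`. The pairs of size
below that of `(l, 1)` are finite in number and the p-adic subspace theorem (of the starting library)
applied to the `S`-units `m ^ (-p) n ^ (-q)` excludes cancellation, since `f(n / m)` has height
`exp (o(p))` and the `S`-unit of the pair `(l, 1)` is not equivalent to that of another pair. If one of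
`p`, `q` is much larger than the other, the pairs with `n = 1` or with `m = n + 1` dominate.
-/

set_option autoImplicit false

namespace Pool.Agent.Results.MP_9206b6_nt.LinearWindows

open Finset

/-- the double zeta value `ζ(p, q)`, the sum of `m ^ (-p) n ^ (-q)` over `m > n ≥ 1` -/
noncomputable def dz (p q : ℕ) : ℝ :=
  ∑' m : ℕ, (∑ n ∈ Finset.Ico 1 (m + 1), 1 / (n : ℝ) ^ q) / ((m + 1 : ℕ) : ℝ) ^ p

/-- the value `ζ(k)` of the Riemann zeta function, the sum of `m ^ (-k)` over `m ≥ 1` -/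
noncomputable def zetaValue (k : ℕ) : ℝ := ∑' m : ℕ, 1 / ((m + 1 : ℕ) : ℝ) ^ k

/-- For every `B` there are `δ > 0` and natural numbers `C ≥ 1`, `P` such that for all `k` and all
windows `[p₀, p₁]` with `P ≤ p₀ ≤ p₁ ≤ k - P` and `p₁ - p₀ ≤ δ min (p₀, k - p₀)`, all integers `c_p`,
`p₀ ≤ p ≤ p₁`, with `|c_p| ≤ B` and every integer `d`, not all zero,
`|∑_p c_p ζ(p, k - p) + d ζ(k)| > C ^ (-p₀)`. -/
theorem result (B : ℝ) : ∃ (δ : ℝ) (C P : ℕ), 0 < δ ∧ 0 < C ∧
    ∀ k p₀ p₁ : ℕ, P ≤ p₀ → p₀ ≤ p₁ → p₁ + P ≤ k →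
      (p₁ : ℝ) - p₀ ≤ δ * p₀ → (p₁ : ℝ) - p₀ ≤ δ * (k - p₀) →
      ∀ (c : ℕ → ℤ) (d : ℤ), (∀ p ∈ Icc p₀ p₁, |(c p : ℝ)| ≤ B) →
        (d ≠ 0 ∨ ∃ p ∈ Icc p₀ p₁, c p ≠ 0) →
        1 / (C : ℝ) ^ p₀ <
          |∑ p ∈ Icc p₀ p₁, (c p : ℝ) * dz p (k - p) + (d : ℝ) * zetaValue k| :=
  Pool.Agent.D0H51.DZ.part1 B

end Pool.Agent.Results.MP_9206b6_nt.LinearWindows
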