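import Mathlib
import Pool.Agent.D0H51.AP.Near

/-!
# MP_9206b6_nt: double zeta values of one weight, several windows

For all `m`, `B` and `η > 0` there is `δ > 0` such that for all large `k` there is no nontrivial linear relation with integer
coefficients of absolute value at most `B` between the double zeta values `ζ(p, k - p)`, where `p` runs over a union of `m`
windows of length `2 δ k` in `[η k, (1 - η) k]`, and `ζ(k)`. So the support of a relation with bounded coefficients (in this
range) cannot be covered by boundedly many windows of length `o(k)`.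

With `m = 1` this is contained in the hand-in `LinearWindows` on this page. For several windows a new difficulty appears: the
terms of the different windows for different pairs `(x_1, x_2)` can have the same size, `x_1 ^ (-p) x_2 ^ (p - k) =
y_1 ^ (-p') y_2 ^ (p' - k)`, and for the pairs of one window the polynomial with the coefficients of the window does not see the
other windows.

Proof. A combination is the sum of S-units `x_1 ^ (-p) x_2 ^ (-q)` with coefficients of small height. One considers a window of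
the smallest weight for the tuples with entries at least two, pairs of primes `x_1 > x_2` and all windows within `o(k)` of it;
each window is dominated by one of its ends at a suitable pair, the logarithms of the primes from a separated grid distinguish
the ends, and the p-adic subspace theorem (starting library) excludes cancellation with the other windows.
-/

set_option autoImplicit false

namespace Pool.Agent.Results.MP_9206b6_nt.ManyWindows

open Finset

/-- the double zeta value `ζ(p, q)`, the sum of `m ^ (-p) n ^ (-q)` over `m > n ≥ 1` -/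
noncomputable def dz (p q : ℕ) : ℝ :=
  ∑' m : ℕ, (∑ n ∈ Finset.Ico 1 (m + 1), 1 / (n : ℝ) ^ q) / ((m + 1 : ℕ) : ℝ) ^ p

/-- the value `ζ(k)` of the Riemann zeta function, the sum of `m ^ (-k)` over `m ≥ 1` -/
noncomputable def zetaValue (k : ℕ) : ℝ := ∑' m : ℕ, 1 / ((m + 1 : ℕ) : ℝ) ^ k

open Pool.Agent.D0H51.AP (mzv trunc core totL mzv_near bz)

lemma dz_eq (p q : ℕ) : dz p q = mzv [p, q] := by
  rw [dz, mzv]
  refine tsum_congr fun m => ?_
  rw [trunc]
  simp only [trunc]

lemma one_le_zetaValue {k : ℕ} (hk : 2 ≤ k) : 1 ≤ zetaValue k := by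
  have hs : Summable fun m : ℕ => 1 / ((m + 1 : ℕ) : ℝ) ^ k :=
    (summable_nat_add_iff 1).2 (Real.summable_one_div_nat_pow.2 (by omega))
  have h1 := hs.le_tsum 0 (fun j _ => by positivity)
  unfold zetaValue
  simpa using h1

/-- a sum over a set in a window -/
lemma sum_window (S : Finset ℕ) (b W : ℕ) (hS : ∀ p ∈ S, b ≤ p ∧ p ≤ b + W) (g : ℕ → ℝ) :
    ∑ p ∈ S, g p = ∑ i ∈ range (W + 1), if b + i ∈ S then g (b + i) else 0 := by
  have h1 : S ⊆ (range (W + 1)).image (b + ·) := by
    intro p hp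
    rw [mem_image]
    obtain ⟨h2, h3⟩ := hS p hp
    exact ⟨p - b, by rw [mem_range]; omega, by omega⟩
  have h2 : ∑ p ∈ (range (W + 1)).image (b + ·), (if p ∈ S then g p else 0) = ∑ p ∈ S, g p := by
    rw [← sum_filter]
    congr 1
    ext p
    rw [mem_filter]
    exact ⟨fun h => h.2, fun h => ⟨h1 h, h⟩⟩
  rw [← h2, sum_image]
  intro i _ j _ hij
  exact Nat.add_left_cancel hij

/-- For all `m`, `B` and `η > 0` there are `δ > 0` and natural numbers `C ≥ 1`, `P` such that for all `k ≥ P`, all real numbers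
`x_1, ..., x_m` and all finite sets `S` of natural numbers `p` with `η k ≤ p ≤ (1 - η) k` and `|p - x_t| ≤ δ k` for some `t`,
all integers `c_p`, `p ∈ S`, with `|c_p| ≤ B` and every integer `d`, not all zero:
`|∑_{p ∈ S} c_p ζ(p, k - p) + d ζ(k)| > C ^ (-k)`. -/
theorem result (m B : ℕ) (η : ℝ) (hη : 0 < η) : ∃ (δ : ℝ) (C P : ℕ), 0 < δ ∧ 0 < C ∧
    ∀ (k : ℕ) (x : Fin m → ℝ) (S : Finset ℕ), P ≤ k →
      (∀ p ∈ S, η * k ≤ p ∧ (p : ℝ) ≤ (1 - η) * k ∧ ∃ t, |(p : ℝ) - x t| ≤ δ * k) →
      ∀ (c : ℕ → ℤ) (d : ℤ), (∀ p ∈ S, |c p| ≤ (B : ℤ)) → (d ≠ 0 ∨ ∃ p ∈ S, c p ≠ 0) →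
        1 / (C : ℝ) ^ k < |∑ p ∈ S, (c p : ℝ) * dz p (k - p) + (d : ℝ) * zetaValue k| := by
  classical
  obtain ⟨κ, hκ⟩ := exists_nat_gt (4 / η)
  obtain ⟨δ0, C, P0, hδ0, hC, hcore⟩ := core 2 m B κ
  obtain ⟨P1, hP1⟩ := Pool.Agent.D0H51.DZ.ev_small (2 * (B * (8 * Pool.Agent.D0H51.DR.CC 2))) (η / 8) (by positivity)
    (by positivity)
  refine ⟨min (δ0 * η / 8) (η / 8), max C 4, max P0 (max (max P1 2) ⌈4 / η * (P0 + 3)⌉₊), by positivity,
    lt_of_lt_of_le hC (le_max_left _ _), ?_⟩
  intro k x S hk hS c d hc hne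
  rw [max_le_iff, max_le_iff, max_le_iff] at hk
  obtain ⟨hkP, ⟨hkP1, hk2⟩, hk4⟩ := hk
  have hk4' : 4 / η * (P0 + 3) ≤ k := (Nat.le_ceil _).trans (by exact_mod_cast hk4)
  rw [div_mul_eq_mul_div, div_le_iff₀ hη] at hk4'
  have hP00 : (0 : ℝ) ≤ P0 := Nat.cast_nonneg _
  have hηk : (P0 : ℝ) + 3 ≤ η * k / 4 := by linarith [mul_comm (k : ℝ) η]
  have hk0 : (0 : ℝ) < k := by
    by_contra hcon
    push Not at hcon
    nlinarith
  set δ : ℝ := min (δ0 * η / 8) (η / 8) with hδ
  have hδ1 : δ ≤ δ0 * η / 8 := min_le_left _ _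
  have hδ2 : δ ≤ η / 8 := min_le_right _ _
  have hδpos : 0 < δ := by positivity
  set N : ℕ := ⌊η * k / 2⌋₊ with hN
  have hN1 : (N : ℝ) ≤ η * k / 2 := Nat.floor_le (by positivity)
  have hN2 : η * k / 2 < N + 1 := Nat.lt_floor_add_one _
  have hN3 : η * k / 4 ≤ N := by linarith
  have hNP : P0 ≤ N := by
    have : (P0 : ℝ) ≤ N := by linarith
    exact_mod_cast this
  have hN2' : 2 ≤ N := by
    have : (2 : ℝ) ≤ N := by linarith
    exact_mod_cast this
  have hη1 : S.Nonempty → η ≤ 1 / 2 := by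
    rintro ⟨p, hp⟩
    have h1 := (hS p hp).1
    have h2 := (hS p hp).2.1
    by_contra hcon
    push Not at hcon
    nlinarith
  have hNk : N ≤ k ∨ S = ∅ := by
    rcases S.eq_empty_or_nonempty with h | h
    · exact Or.inr h
    · left
      have h1 := hη1 h
      have : (N : ℝ) ≤ k := by nlinarith
      exact_mod_cast this
  have hkκ : (k : ℝ) ≤ κ * N := by
    have h1 : (k : ℝ) ≤ 4 / η * N := by
      rw [div_mul_eq_mul_div, le_div_iff₀ hη]
      linarith [mul_comm (k : ℝ) η]
    exact h1.trans (mul_le_mul_of_nonneg_right hκ.le (Nat.cast_nonneg _))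
  -- the values are small
  have hpk : ∀ p ∈ S, N ≤ p ∧ N ≤ k - p ∧ p ≤ k := by
    intro p hp
    obtain ⟨h1, h2, _⟩ := hS p hp
    have h3 : p ≤ k := by
      have : (p : ℝ) ≤ k := by nlinarith
      exact_mod_cast this
    refine ⟨?_, ?_, h3⟩
    · have : (N : ℝ) ≤ p := by nlinarith
      exact_mod_cast this
    · have : (N : ℝ) ≤ ((k - p : ℕ) : ℝ) := by
        rw [Nat.cast_sub h3]
        nlinarith
      exact_mod_cast this
  have hsmall : |∑ p ∈ S, (c p : ℝ) * dz p (k - p)| ≤ 1 / 4 := by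
    refine (abs_sum_le_sum_abs _ _).trans ?_
    have h1 : ∀ p ∈ S, |(c p : ℝ) * dz p (k - p)| ≤ B * (8 * Pool.Agent.D0H51.DR.CC 2 / 2 ^ N) := by
      intro p hp
      obtain ⟨h2, h3, h4⟩ := hpk p hp
      have h5 := mzv_near 2 N hN2' [p, k - p] (by simp) (by simp) (by
        intro s hs
        simp only [List.mem_cons, List.not_mem_nil, or_false] at hs
        rcases hs with rfl | rfl
        · exact h2
        · exact h3)
      have h6 : bz [p, k - p] = 0 := by simp [bz]
      rw [h6, Int.cast_zero, sub_zero] at h5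
      rw [abs_mul, dz_eq]
      have h7 : |(c p : ℝ)| ≤ B := by exact_mod_cast hc p hp
      exact mul_le_mul h7 h5 (abs_nonneg _) (Nat.cast_nonneg _)
    refine (sum_le_card_nsmul _ _ _ h1).trans ?_
    rw [nsmul_eq_mul]
    have h2 : (S.card : ℝ) ≤ k + 1 := by
      have h3 : S ⊆ range (k + 1) := fun p hp => by
        rw [mem_range]
        have := (hpk p hp).2.2
        omega
      have h4 := card_le_card h3
      rw [card_range] at h4
      exact_mod_cast h4
    have h3 : (1 : ℝ) / 2 ^ N ≤ Real.exp (-(η / 8 * k)) := by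
      rw [Real.exp_neg, one_div]
      apply inv_anti₀ (Real.exp_pos _)
      have e1 : (2 : ℝ) ^ N = Real.exp (Real.log 2 * N) := by
        rw [Real.exp_mul, Real.exp_log two_pos, Real.rpow_natCast]
      rw [e1, Real.exp_le_exp]
      have e2 := Real.log_two_gt_d9
      nlinarith
    have h4 := hP1 k (by exact_mod_cast hkP1)
    have hCC0 : (0 : ℝ) ≤ Pool.Agent.D0H51.DR.CC 2 := Nat.cast_nonneg _
    have hB0 : (0 : ℝ) ≤ B := Nat.cast_nonneg _
    calc (S.card : ℝ) * (B * (8 * Pool.Agent.D0H51.DR.CC 2 / 2 ^ N))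
        = S.card * (B * (8 * Pool.Agent.D0H51.DR.CC 2)) * (1 / 2 ^ N) := by ring
      _ ≤ (k + 1) * (B * (8 * Pool.Agent.D0H51.DR.CC 2)) * Real.exp (-(η / 8 * k)) := by gcongr
      _ ≤ 2 * (B * (8 * Pool.Agent.D0H51.DR.CC 2)) * (k + 1) * Real.exp (-(η / 8 * k)) := by
          have : 0 ≤ (k + 1) * (B * (8 * Pool.Agent.D0H51.DR.CC 2)) * Real.exp (-(η / 8 * k)) := by positivity
          linarith
      _ ≤ 1 / 4 := h4
  by_cases hd : d ≠ 0
  · have h1 := one_le_zetaValue hk2
    have h2 : (1 : ℝ) ≤ |(d : ℝ) * zetaValue k| := by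
      rw [abs_mul]
      have h3 : (1 : ℝ) ≤ |(d : ℝ)| := by
        have := Int.one_le_abs hd
        exact_mod_cast this
      have h4 : (1 : ℝ) ≤ |zetaValue k| := h1.trans (le_abs_self _)
      nlinarith
    have h3 : (1 : ℝ) / ((max C 4 : ℕ) : ℝ) ^ k ≤ 1 / 4 := by
      have e1 : (4 : ℝ) ≤ ((max C 4 : ℕ) : ℝ) := by exact_mod_cast le_max_right _ _
      have e2 : (4 : ℝ) ≤ ((max C 4 : ℕ) : ℝ) ^ k := by
        refine e1.trans ?_
        apply le_self_pow₀ (by linarith)
        omega
      gcongr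
    have h4 := abs_sub_abs_le_abs_sub ((d : ℝ) * zetaValue k) (-(∑ p ∈ S, (c p : ℝ) * dz p (k - p)))
    rw [abs_neg, sub_neg_eq_add, add_comm ((d : ℝ) * zetaValue k)] at h4
    linarith
  push Not at hd
  rw [hd, Int.cast_zero, zero_mul, add_zero]
  obtain ⟨p1, hp1, hcp1⟩ : ∃ p ∈ S, c p ≠ 0 := by
    rcases hne with h | h
    · exact absurd hd h
    · exact h
  have hηh := hη1 ⟨p1, hp1⟩
  have hτ : ∀ p, ∃ t : Fin m, p ∈ S → |(p : ℝ) - x t| ≤ δ * k := by
    intro p
    by_cases hp : p ∈ S
    · obtain ⟨t, ht⟩ := (hS p hp).2.2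
      exact ⟨t, fun _ => ht⟩
    · obtain ⟨t, _⟩ := (hS p1 hp1).2.2
      exact ⟨t, fun h => absurd h hp⟩
  choose τ hτ using hτ
  set W : ℕ := ⌊2 * δ * k⌋₊ with hW
  have hW1 : (W : ℝ) ≤ 2 * δ * k := Nat.floor_le (by positivity)
  have hWN : (W : ℝ) ≤ δ0 * N := by
    have h1 : 2 * δ * k ≤ δ0 * (η * k / 4) := by nlinarith
    exact (hW1.trans h1).trans (mul_le_mul_of_nonneg_left hN3 hδ0.le)
  have hb : ∀ t : Fin m, ∃ b ∈ S, ∀ p ∈ S.filter (fun p => τ p = t), b ≤ p ∧ p ≤ b + W := by
    intro t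
    rcases (S.filter (fun p => τ p = t)).eq_empty_or_nonempty with h | h
    · refine ⟨p1, hp1, fun p hp => ?_⟩
      rw [h] at hp
      exact absurd hp (notMem_empty _)
    · have hmin := min'_mem _ h
      refine ⟨(S.filter (fun p => τ p = t)).min' h, (mem_filter.1 hmin).1, fun p hp => ?_⟩
      refine ⟨min'_le _ _ hp, ?_⟩
      rw [mem_filter] at hp hmin
      have h1 := hτ p hp.1
      have h2 := hτ _ hmin.1
      rw [hp.2] at h1
      rw [hmin.2] at h2
      rw [abs_le] at h1 h2
      have h3 : ((p : ℝ) - ((S.filter (fun p => τ p = t)).min' h : ℕ)) ≤ 2 * δ * k := by linarith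
      have h4 : p - (S.filter (fun p => τ p = t)).min' h ≤ W := by
        apply Nat.le_floor
        rw [Nat.cast_sub (min'_le _ _ (mem_filter.2 hp))]
        exact h3
      omega
  choose b hbS hb using hb
  have hbk : ∀ t, ∀ i ≤ W, N ≤ b t + i ∧ b t + i ≤ k ∧ N ≤ k - (b t + i) := by
    intro t i hi
    obtain ⟨h1, h2, _⟩ := hS _ (hbS t)
    have h3 : (i : ℝ) ≤ 2 * δ * k := le_trans (by exact_mod_cast hi) hW1
    have h4 : 2 * δ * k ≤ η * k / 4 := by nlinarith
    have h5 : b t + i ≤ k := by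
      have : ((b t + i : ℕ) : ℝ) ≤ k := by
        push_cast
        nlinarith
      exact_mod_cast this
    refine ⟨le_trans (hpk _ (hbS t)).1 (Nat.le_add_right _ _), h5, ?_⟩
    have : (N : ℝ) ≤ ((k - (b t + i) : ℕ) : ℝ) := by
      rw [Nat.cast_sub h5]
      push_cast
      nlinarith
    exact_mod_cast this
  have key := hcore N W (fun _ => 2) (fun t i => [b t + i, k - (b t + i)])
    (fun _ j => if j = 0 then 1 else if j = 1 then -1 else 0)
    (fun t i => if b t + i ∈ S.filter (fun p => τ p = t) then c (b t + i) else 0) hNP hWN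
    (fun _ => le_rfl) (fun _ _ _ => rfl) (fun t i hi y hy => by
      obtain ⟨h1, h2, h3⟩ := hbk t i hi
      have hkκ' : k ≤ κ * N := by exact_mod_cast hkκ
      simp only [List.mem_cons, List.not_mem_nil, or_false] at hy
      rcases hy with rfl | rfl
      · exact ⟨h1, by omega⟩
      · exact ⟨h3, by omega⟩) (fun t i hi j => by
      have h1 := (hbk t i hi).2.1
      have h2 := (hbk t 0 (Nat.zero_le _)).2.1
      rcases j with _ | _ | j
      · simp
      · simp only [List.getD_cons_succ, List.getD_cons_zero, zero_add, one_ne_zero, if_false, if_true]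
        rw [Nat.cast_sub h1, Nat.cast_sub h2]
        push_cast
        ring
      · simp) (fun t i hi i' hi' j => by
      have h1 := (hbk t i hi).2.1
      have h2 := (hbk t i' hi').2.1
      have h3 : (i : ℝ) ≤ W := by exact_mod_cast hi
      have h4 : (i' : ℝ) ≤ W := by exact_mod_cast hi'
      have h5 : (0 : ℝ) ≤ i := Nat.cast_nonneg _
      have h6 : (0 : ℝ) ≤ i' := Nat.cast_nonneg _
      rcases j with _ | _ | j
      · simp only [List.getD_cons_zero]
        push_cast
        linarith
      · simp only [List.getD_cons_succ, List.getD_cons_zero]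
        rw [Nat.cast_sub h1, Nat.cast_sub h2]
        push_cast
        linarith
      · simp only [List.getD_cons_succ, List.getD_nil, Nat.cast_zero]
        positivity) (fun t i hi => by
      split_ifs with h
      · exact hc _ (mem_filter.1 h).1
      · simp) ⟨[p1, k - p1], by
      unfold totL
      have h1 : ∀ t : Fin m, ∀ i ∈ range (W + 1), (if [b t + i, k - (b t + i)] = [p1, k - p1] then
          (if b t + i ∈ S.filter (fun p => τ p = t) then c (b t + i) else 0) else 0) =
          if t = τ p1 ∧ b t + i = p1 then c p1 else 0 := by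
        intro t i _
        by_cases h2 : b t + i = p1
        · rw [h2, if_pos rfl]
          by_cases h3 : t = τ p1
          · rw [if_pos (mem_filter.2 ⟨hp1, h3.symm⟩), if_pos ⟨h3, rfl⟩]
          · rw [if_neg (fun h => h3 (mem_filter.1 h).2.symm), if_neg (fun h => h3 h.1)]
        · rw [if_neg (fun h => h2 (List.cons.inj h).1), if_neg (fun h => h2 h.2)]
      rw [sum_congr rfl fun t _ => sum_congr rfl (h1 t), sum_eq_single (τ p1)]
      · have h2 := hb (τ p1) p1 (mem_filter.2 ⟨hp1, rfl⟩)
        rw [sum_eq_single (p1 - b (τ p1))]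
        · rw [if_pos ⟨rfl, by omega⟩]
          exact hcp1
        · intro i _ hi
          rw [if_neg]
          rintro ⟨_, h3⟩
          omega
        · intro h
          rw [mem_range] at h
          omega
      · intro t _ ht
        apply sum_eq_zero
        intro i _
        rw [if_neg (fun h => ht h.1)]
      · intro h
        exact absurd (mem_univ _) h⟩
  have hsum : ∑ p ∈ S, (c p : ℝ) * dz p (k - p) = ∑ t : Fin m, ∑ i ∈ range (W + 1),
      (((if b t + i ∈ S.filter (fun p => τ p = t) then c (b t + i) else 0 : ℤ)) : ℝ) *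
        mzv [b t + i, k - (b t + i)] := by
    rw [← sum_fiberwise S τ]
    refine sum_congr rfl fun t _ => ?_
    rw [sum_window _ (b t) W (hb t)]
    refine sum_congr rfl fun i _ => ?_
    split_ifs with h
    · rw [dz_eq]
    · simp
  rw [hsum]
  refine lt_of_le_of_lt ?_ key
  have e1 : (1 : ℝ) ≤ C := by exact_mod_cast hC
  have hNk' : N ≤ k := by
    rcases hNk with h | h
    · exact h
    · rw [h] at hp1
      exact absurd hp1 (notMem_empty _)
  calc (1 : ℝ) / ((max C 4 : ℕ) : ℝ) ^ k ≤ 1 / (C : ℝ) ^ k := by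
        have e2 : (C : ℝ) ≤ ((max C 4 : ℕ) : ℝ) := by exact_mod_cast le_max_left _ _
        gcongr
    _ ≤ 1 / (C : ℝ) ^ N := by
        gcongr

end Pool.Agent.Results.MP_9206b6_nt.ManyWindows
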