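import Mathlib
import Pool.Agent.D0H51.DZ.Main2

/-!
# Double zeta values of one weight around the rational positions, large coefficients

Let `a, b ≥ 1`. The double zeta values `ζ(p, k - p)` of weight `k` near `(a + b) N` with
`|p - a N| ≤ N ^ t`, together with `ζ(k)`, satisfy no linear relation with integer coefficients of
absolute value at most `exp (N ^ γ)`, as soon as `a min (t, γ) + max (t, γ) < 1`; the value of a nonzero
combination is larger than `N ^ (-ε N)`, `ε > a min (t, γ)`. For `a = b = 1` (the middle of the range)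
the condition is `t + γ < 1`. In the starting file `MiddleArguments` (`a = b = 1`) the conditions are
`t < 1 / 3` and `γ + 2 t < 1`.

Proof. A combination is the sum over the pairs `n < m` of `f(n / m) m ^ (-p) n ^ (-q)` with one
polynomial `f` with the coefficients `c`. The pairs are grouped by the value `g` of `m ^ a n ^ b`, the
contribution of a group is a rational number with denominator at most about `g ^ N`; so the first
group with a contribution different from zero dominates. If `f(1 / l) = 0` for a prime number `l`, the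
leading coefficient of `f` is divisible by `l`. So `f(1 / l)`, which is the contribution of the group of
`l ^ a`, is not zero for some prime number `l ≤ N ^ λ`, `λ > min (t, γ)`: otherwise `f` has too many
zeros, and its leading coefficient is too large.
-/

set_option autoImplicit false

namespace Pool.Agent.Results.MP_9206b6_nt.RationalPositions

open Finset

/-- the double zeta value `ζ(p, q)`, the sum of `m ^ (-p) n ^ (-q)` over `m > n ≥ 1` -/
noncomputable def dz (p q : ℕ) : ℝ :=
  ∑' m : ℕ, (∑ n ∈ Finset.Ico 1 (m + 1), 1 / (n : ℝ) ^ q) / ((m + 1 : ℕ) : ℝ) ^ p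

/-- the value `ζ(k)` of the Riemann zeta function, the sum of `m ^ (-k)` over `m ≥ 1` -/
noncomputable def zetaValue (k : ℕ) : ℝ := ∑' m : ℕ, 1 / ((m + 1 : ℕ) : ℝ) ^ k

/-- the first arguments `p ≤ k` with `|p - a N| ≤ N ^ t` -/
noncomputable def window (k a N : ℕ) (t : ℝ) : Finset ℕ :=
  (range (k + 1)).filter fun p : ℕ => |(p : ℝ) - a * N| ≤ (N : ℝ) ^ t

/-- Let `a, b ≥ 1`, `t, γ > 0`, `a min (t, γ) + max (t, γ) < 1` and `ε > a min (t, γ)`. For all large
`N`, all `k` with `|k - (a + b) N| ≤ N ^ t`, all integers `c_p`, `|p - a N| ≤ N ^ t`, with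
`|c_p| ≤ exp (N ^ γ)` and every integer `d`, not all zero,
`|∑_p c_p ζ(p, k - p) + d ζ(k)| > N ^ (-ε N)`. -/
theorem result (a b : ℕ) (ha : 1 ≤ a) (hb : 1 ≤ b) (t γ ε : ℝ) (ht : 0 < t) (hγ : 0 < γ)
    (h1 : a * min t γ + max t γ < 1) (hε : a * min t γ < ε) :
    ∃ N0 : ℕ, ∀ N k : ℕ, N0 ≤ N → |(k : ℝ) - (a + b) * N| ≤ (N : ℝ) ^ t →
      ∀ (c : ℕ → ℤ) (d : ℤ), (∀ p ∈ window k a N t, |(c p : ℝ)| ≤ Real.exp ((N : ℝ) ^ γ)) →
        (d ≠ 0 ∨ ∃ p ∈ window k a N t, c p ≠ 0) →
        (N : ℝ) ^ (-(ε * N)) <
          |∑ p ∈ window k a N t, (c p : ℝ) * dz p (k - p) + (d : ℝ) * zetaValue k| :=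
  Pool.Agent.D0H51.DZ.part2 a b ha hb t γ ε ht hγ h1 hε

end Pool.Agent.Results.MP_9206b6_nt.RationalPositions
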